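import Pool.Agent.H71.FX.Targets3
import Pool.Agent.H71.PX.PW

/-!
# MP_64fb07_lc, board fxm_modules, row AS: images of spectra
-/

set_option autoImplicit false

namespace Pool.Agent.H50.FX

open Pool.Agent.H71.FX Pool.Agent.H69.Sp Pool.Agent.H76.ADV Pool.Agent.H71.PX

theorem spec_pos {S : Set ℕ} (hS : IsSpectrum S) {m : ℕ} (hm : m ∈ S) : 0 < m := by
  obtain ⟨L, _, _, φ, rfl⟩ := hS
  exact hm.1

theorem gr_f (a s : ℕ) : GR (fun u => a * u ^ s) := (GR.num a).mul (gr_pow GR.id s)

theorem f_inj {a s : ℕ} (ha : 0 < a) (hs : 0 < s) {x y : ℕ} (h : a * x ^ s = a * y ^ s) :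
    x = y := by
  have h1 : x ^ s = y ^ s := Nat.eq_of_mul_eq_mul_left ha h
  exact Nat.pow_left_injective (by omega) h1

theorem f_le {a s : ℕ} (ha : 0 < a) (hs : 0 < s) (x : ℕ) : x ≤ a * x ^ s :=
  (Nat.le_self_pow (by omega) x).trans (Nat.le_mul_of_pos_left _ ha)

theorem pf_AS : T_AS := by
  intro S a s ha hs hS
  have inj := fun x y (h : a * x ^ s = a * y ^ s) => f_inj ha hs h
  have gf : GR (fun u => a * (Nat.unpair u).1 ^ s) := (GR.num a).mul (gr_pow GR.fst' s)
  refine ⟨?_, ?_, ?_⟩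
  · have h1 : RL (fun u => ∃ m, m < u + 1 ∧ (a * m ^ s = u ∧ m ∈ S)) := by
      refine RL.ex (R := fun m u => a * m ^ s = u ∧ m ∈ S) ?_ (GR.id.add (GR.num 1))
      exact (RL.eq gf GR.snd').and (RL.mem hS GR.fst')
    have h2 := h1.isSpectrum
    have e : {u : ℕ | 0 < u ∧ ∃ m, m < u + 1 ∧ (a * m ^ s = u ∧ m ∈ S)} =
        (fun m => a * m ^ s) '' S := by
      ext u
      constructor
      · rintro ⟨-, m, -, he, hm⟩
        exact ⟨m, hm, he⟩
      · rintro ⟨m, hm, he⟩
        have he' : a * m ^ s = u := he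
        have h3 : m ≤ u := by rw [← he']; exact f_le ha hs m
        have h4 : 0 < m := spec_pos hS hm
        exact ⟨by omega, m, by omega, he', hm⟩
    rwa [e] at h2
  · intro h
    have h1 := (RL.mem h (gr_f a s)).isSpectrum
    have e : {u : ℕ | 0 < u ∧ a * u ^ s ∈ posCompl ((fun m => a * m ^ s) '' S)} =
        posCompl S := by
      ext u
      constructor
      · rintro ⟨h0, _, h2⟩
        exact ⟨h0, fun hu => h2 ⟨u, hu, rfl⟩⟩
      · rintro ⟨h0, h2⟩
        refine ⟨h0, Nat.mul_pos ha (Nat.pow_pos h0), ?_⟩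
        rintro ⟨m, hm, he⟩
        rw [inj _ _ he] at hm
        exact h2 hm
    rwa [e] at h1
  · intro h
    have h1 : RL (fun u => ∀ m, m < u + 1 → (a * m ^ s ≠ u ∨ m ∈ posCompl S)) := by
      refine RL.all (R := fun m u => a * m ^ s ≠ u ∨ m ∈ posCompl S) ?_ (GR.id.add (GR.num 1))
      exact (RL.ne gf GR.snd').or (RL.mem h GR.fst')
    have h2 := h1.isSpectrum
    have e : {u : ℕ | 0 < u ∧ ∀ m, m < u + 1 → (a * m ^ s ≠ u ∨ m ∈ posCompl S)} =
        posCompl ((fun m => a * m ^ s) '' S) := by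
      ext u
      constructor
      · rintro ⟨h0, h3⟩
        refine ⟨h0, ?_⟩
        rintro ⟨m, hm, he⟩
        have he' : a * m ^ s = u := he
        have : m < u + 1 := by
          rw [← he']
          exact Nat.lt_succ_of_le (f_le ha hs m)
        rcases h3 m this with h4 | h4
        · exact h4 he'
        · exact h4.2 hm
      · rintro ⟨h0, h3⟩
        refine ⟨h0, fun m _ => ?_⟩
        by_cases hm : a * m ^ s = u
        · right
          refine ⟨?_, fun hS' => h3 ⟨m, hS', hm⟩⟩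
          rcases Nat.eq_zero_or_pos m with rfl | h5
          · rw [zero_pow (by omega), mul_zero] at hm
            omega
          · exact h5
        · exact Or.inl hm
    rwa [e] at h2

end Pool.Agent.H50.FX
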