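import Pool.Agent.H71.FX.Targets3
import Pool.Agent.H38.PX.NC

/-!
# MP_64fb07_lc, board fxm_modules, row NX: one complete set
-/

set_option autoImplicit false

namespace Pool.Agent.H50.FX

open Pool.Agent.H71.FX Pool.Agent.H69.Sp Pool.Agent.H8.PL Pool.Agent.H8.JS Pool.Agent.H8.UN

theorem pf_NX (as : T_AS) : T_NX := by
  intro C hC
  obtain ⟨a, s, ha, hs, hX⟩ := hC X0 pf_xs
  obtain ⟨h1, -⟩ := as X0 a s ha hs pf_xs
  have hCo : Pool.Agent.H51.UN.Complete ((fun m => a * m ^ s) '' X0) :=
    Pool.Agent.H51.UN.complete_of n_ur n_re _ (fun n => a * n ^ s)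
      (Polynomial.C (a : ℤ) * Polynomial.X ^ s) h1
      (fun n _ => by simp)
      (fun n _ => (Nat.le_self_pow (by omega) n).trans (Nat.le_mul_of_pos_left _ ha))
      (fun X hX => ge4 Pool.Agent.H19.UN.pf_f4 _ X
        (Pool.Agent.H84.TW.pf_pb X hX a s (by omega) hs))
      (fun n _ => by
        constructor
        · intro h
          exact ⟨n, h, rfl⟩
        · rintro ⟨m, hm, he⟩
          have he' : a * m ^ s = a * n ^ s := he
          have h2 : m = n :=
            Nat.pow_left_injective (by omega) (Nat.eq_of_mul_eq_mul_left ha he')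
          rw [← h2]; exact hm)
  have h2 := ne_of _ hCo
  exact ⟨_, hX, h2.1, h2.2, (j_jc _).symm.trans h2.2⟩

end Pool.Agent.H50.FX
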